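import Pool.Agent.Helper93_LQD.All
import Pool.Agent.Helper77_LQF.JAL
import Pool.Agent.Helper32_LQF.JMA
import Pool.Agent.Helper41_LQF.TRI
import Pool.Agent.Helper27_LQF.YTJ
import Pool.Agent.Helper2_LQF.FLW
import Pool.Agent.Helper70_LQF.UFL
import Pool.Agent.Helper8_LQF.JTB
import Pool.Agent.Helper70_LQF.JTP
import Pool.Agent.Helper85_LQF.JTX
import Pool.Agent.Helper16_LQF.JTL
import Pool.Agent.Helper81_LQF.NRB
import Pool.Agent.Helper65_LQF.PHB
import Pool.Agent.Helper91_LQF.XHB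
import Pool.Agent.Helper62_LQF.WFB
import Pool.Agent.Helper20_LQF.WAB
import Pool.Agent.Helper41_LQF.THB
import Pool.Agent.Helper2_LQF.GDC
import Pool.Agent.Helper67_LQF.PWU
import Pool.Agent.Helper45_LQF.YTU
import Pool.Agent.Helper65_LQF.LMU
import Pool.Agent.Helper40_LQF.WTU
import Pool.Agent.Helper69_LQF.FMU
import Pool.Agent.Helper49_LQF.KFT
import Pool.Agent.Helper17_LQF.LOW
import Pool.Agent.Helper32_LQF.JCB
import Pool.Agent.Helper8_LQF.KHB
import Pool.Agent.Helper94_LQF.BQB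
import Pool.Agent.Helper94_LQF.GAL
import Pool.Agent.Helper88_LQF.FRB
import Pool.Agent.Helper68_LQF.MBR
import Pool.Agent.Helper49_LQF.INM
import Pool.Agent.Helper54_LQF.MSS
import Pool.Agent.Helper34_LQF.INW
import Pool.Agent.Helper22_LQX.LMB
import Pool.Agent.Helper32_LQX.NNU
import Pool.Agent.Helper56_LQX.RSJ
import Pool.Agent.Helper5_LQX.GOD
import Pool.Agent.Helper56_LQX.UPA
import Pool.Agent.Helper87_LQX.UPB
import Pool.Agent.Helper69_LQX.UPC
import Pool.Agent.Helper38_LQX.UPD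
import Pool.Agent.Helper76_LQX.USM
import Pool.Agent.Helper67_LQX.UPR
import Pool.Agent.Helper38_LQX.OUT
import Pool.Agent.Helper68_LQX.INI
import Pool.Agent.Helper30_LQX.TOF
import Pool.Agent.Helper54_LQX.CPZ
import Pool.Agent.Helper13_LQX.QXF
import Pool.Agent.Helper91_LQX.EGA
import Pool.Agent.Helper90_LQX.EGB
import Pool.Agent.Helper94_LQX.EIG

/-!
# Diffusion down to `exp (- |σ|^{-θ})`: assembly
-/

set_option autoImplicit false

open MeasureTheory ProbabilityTheory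

noncomputable section

namespace Pool.Agent.LE.QX.H54

open Pool.Agent.BED Pool.Agent.LE.CL Pool.Agent.LE.IR Pool.Agent.LE.QD Pool.Agent.LE.QF

theorem jalT : JalStmt := QF.H77.jal

theorem jmaT : JmaStmt := QF.H32.jma jalT

theorem ytjT : YtjStmt := QF.H27.ytj jalT jmaT QF.H41.tri

theorem uflT : UflStmt := QF.H70.ufl jalT (QF.H2.flw QD.H65.ste)

theorem jtbT : JtbStmt := QF.H8.jtb jalT

theorem jtpT : JtpStmt := QF.H70.jtp jalT jmaT jtbT

theorem jtxT : JtxStmt := QF.H85.jtx jalT jmaT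

theorem jtlT : JtlStmt := QF.H16.jtl jalT jtbT

theorem phbT : PhbStmt := QF.H65.phb QF.H81.nrb

theorem xhbT : XhbStmt := QF.H91.xhb QF.H81.nrb

theorem wfbT : WfbStmt := QF.H62.wfb QF.H81.nrb

theorem pwuT : PwuStmt := QF.H67.pwu jalT

theorem ytuT : YtuStmt := QF.H45.ytu ytjT jalT

theorem lmuT : LmuStmt := QF.H65.lmu jalT

theorem wtuT : WtuStmt := QF.H40.wtu jalT jmaT QF.H41.tri QF.H20.wab

theorem kftT : KftStmt := QF.H49.kft QD.H93.ralT QF.H69.fmu IR.H54.ftb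

theorem khbT : KhbStmt := QF.H8.khb QF.H32.jcb

theorem bqbT : BqbStmt := QF.H94.bqb khbT QD.H38.dsu

theorem galT : GalStmt := QF.H94.gal QD.H93.gapT QD.H69.dsl QD.H38.dsu QD.H93.ralT IR.H54.ftb

theorem frbT : FrbStmt :=
  QF.H88.frb (QD.H46.bkt QD.H45.bes QD.H90.be2 QD.H89.tor) QD.H93.sobT QD.H38.dsu QD.H93.ralT

theorem mbrT : MbrStmt := QF.H68.mbr QD.H69.dsl QD.H38.dsu khbT QD.H93.ralT

theorem inmT : InmStmt := QF.H49.inm QF.H69.fmu QF.H17.low_

theorem inwT : InwStmt := QF.H34.inw kftT QF.H69.fmu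

theorem lmbT : QX.LmbStmt := QX.H22L.lmb QF.H81.nrb

theorem nnuT : QX.NnuStmt := QX.H32.nnu QF.H20.wab

theorem rsjT : QX.RsjStmt := QX.H56.rsj jalT jmaT

theorem godT : QX.GodStmt := QX.H5.god nnuT rsjT QF.H2.gdc QF.H41.thb QF.H20.wab

theorem upaT : QX.UpaStmt := QX.H56.upa jtpT jtxT phbT xhbT pwuT rsjT

theorem upbT : QX.UpbStmt := QX.H87.upb jtbT QF.H81.nrb ytuT rsjT

theorem upcT : QX.UpcStmt := QX.H69.upc jtlT lmbT lmuT rsjT

theorem updT : QX.UpdStmt := QX.H38.upd jtbT wfbT wtuT rsjT nnuT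

theorem usmT : QX.UsmStmt := QX.H76.usm jmaT QF.H20.wab nnuT rsjT

theorem uprT : QX.UprStmt := QX.H67.upr uflT usmT nnuT godT upaT upbT upcT updT QF.H20.wab

theorem outT : QX.OutStmt := QX.H38.out godT QF.H20.wab

theorem mssT : MssStmt := QF.H54.mss QF.H69.fmu QF.H17.low_

theorem iniT : QX.IniStmt :=
  QX.H68.ini mbrT frbT bqbT galT khbT inmT inwT mssT kftT QD.H93.ralT

theorem tofT : QX.TofStmt := QX.H30.tof iniT uprT outT

theorem cpzT : QX.CpzStmt := QX.H54.cpz tofT QD.H23.gro (QD.H72.cls (QD.H59.hsc CL.H17.laq))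

theorem qxfT : QX.QxfStmt := QX.H13.qxf cpzT CL.H54.crgT

theorem egbT : QX.EgbStmt := QX.H90.egb QX.H91.ega

theorem eigT : QX.EigStmt := QX.H94.eig tofT egbT

end Pool.Agent.LE.QX.H54
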